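import Mathlib

set_option autoImplicit false

/-!
# Preparations for the functional Mahler inequality
-/

open MeasureTheory Filter Topology
open scoped Matrix ENNReal

namespace H739FM

/-- A convex set of finite volume with nonempty interior is bounded. -/
theorem bounded_of_finite {n : ℕ} {S : Set (Fin n → ℝ)} (hS : Convex ℝ S) {r : ℝ} (hr : 0 < r)
    (hball : Metric.closedBall (0 : Fin n → ℝ) r ⊆ S) (hfin : volume S ≠ ⊤) :
    Bornology.IsBounded S := by
  set v := volume (Metric.ball (0 : Fin n → ℝ) (r / 2)) with hv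
  have hv0 : 0 < v := Metric.measure_ball_pos volume _ (by positivity)
  have hvt : v ≠ ⊤ := measure_ball_lt_top.ne
  have hvr : 0 < v.toReal := ENNReal.toReal_pos hv0.ne' hvt
  rw [isBounded_iff_forall_norm_le]
  refine ⟨2 * r * ((volume S).toReal / v.toReal + 1), fun x hx => ?_⟩
  by_cases hx0 : ‖x‖ = 0
  · rw [hx0]; positivity
  have hxp : 0 < ‖x‖ := lt_of_le_of_ne (norm_nonneg x) (Ne.symm hx0)
  set N := ⌊‖x‖ / (2 * r)⌋₊ with hN
  have hN1 : (N:ℝ) ≤ ‖x‖ / (2 * r) := Nat.floor_le (by positivity)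
  have hN2 : ‖x‖ / (2 * r) < N + 1 := Nat.lt_floor_add_one _
  set c : ℕ → (Fin n → ℝ) := fun k => (k * (r / ‖x‖)) • x with hc
  have hsub : ∀ k ∈ Finset.range N, Metric.ball (c k) (r / 2) ⊆ S := by
    intro k hk y hy
    have hkN : (k:ℝ) ≤ N := by
      have := Finset.mem_range.1 hk
      exact_mod_cast this.le
    set lam := (k:ℝ) * (r / ‖x‖) with hlam
    have hl0 : 0 ≤ lam := by positivity
    have hl1 : lam ≤ 1 / 2 := by
      have h1 : lam ≤ ‖x‖ / (2 * r) * (r / ‖x‖) :=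
        mul_le_mul_of_nonneg_right (hkN.trans hN1) (by positivity)
      have h2 : ‖x‖ / (2 * r) * (r / ‖x‖) = 1 / 2 := by field_simp
      linarith
    rw [Metric.mem_ball, dist_eq_norm] at hy
    have h1l : 0 < 1 - lam := by linarith
    have hw : (1 - lam)⁻¹ • (y - c k) ∈ S := by
      apply hball
      rw [mem_closedBall_zero_iff, norm_smul, Real.norm_eq_abs, abs_of_pos (inv_pos.2 h1l)]
      have h3 : (1 - lam)⁻¹ ≤ 2 := by
        rw [inv_le_comm₀ h1l (by norm_num)]; linarith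
      calc (1 - lam)⁻¹ * ‖y - c k‖ ≤ 2 * (r / 2) :=
            mul_le_mul h3 hy.le (norm_nonneg _) (by norm_num)
        _ = r := by ring
    have h4 := hS hx hw hl0 h1l.le (by ring)
    have h5 : lam • x + (1 - lam) • ((1 - lam)⁻¹ • (y - c k)) = y := by
      rw [smul_smul, mul_inv_cancel₀ h1l.ne', one_smul]
      simp only [hc]
      abel
    rwa [h5] at h4
  have hdisj : Set.PairwiseDisjoint (↑(Finset.range N)) (fun k => Metric.ball (c k) (r / 2)) := by
    intro k _ l _ hkl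
    apply Metric.ball_disjoint_ball
    have h1 : c k - c l = (((k:ℝ) - l) * (r / ‖x‖)) • x := by
      simp only [hc]
      rw [← sub_smul]
      congr 1
      ring
    rw [dist_eq_norm, h1, norm_smul, Real.norm_eq_abs, abs_mul, abs_of_pos (by positivity : 0 < r / ‖x‖)]
    have h2 : |(k:ℝ) - l| * (r / ‖x‖) * ‖x‖ = |(k:ℝ) - l| * r := by
      field_simp
    rw [h2]
    have h3 : (1:ℝ) ≤ |(k:ℝ) - l| := by
      have h4 : (1:ℤ) ≤ |(k:ℤ) - l| := Int.one_le_abs (by omega)
      have : ((1:ℤ):ℝ) ≤ ((|(k:ℤ) - l| : ℤ) : ℝ) := by exact_mod_cast h4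
      push_cast at this
      exact this
    nlinarith
  have hsum : (N : ℝ≥0∞) * v ≤ volume S := by
    have h1 : volume (⋃ k ∈ Finset.range N, Metric.ball (c k) (r / 2)) =
        ∑ k ∈ Finset.range N, volume (Metric.ball (c k) (r / 2)) :=
      measure_biUnion_finset hdisj fun k _ => measurableSet_ball
    have h2 : ∀ k, volume (Metric.ball (c k) (r / 2)) = v := fun k =>
      Measure.addHaar_ball_center volume _ _
    rw [Finset.sum_congr rfl fun k _ => h2 k, Finset.sum_const, Finset.card_range,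
      nsmul_eq_mul] at h1
    rw [← h1]
    exact measure_mono (Set.iUnion₂_subset hsub)
  have hreal : (N:ℝ) * v.toReal ≤ (volume S).toReal := by
    have := ENNReal.toReal_mono hfin hsum
    rwa [ENNReal.toReal_mul, ENNReal.toReal_natCast] at this
  have h6 : (N:ℝ) ≤ (volume S).toReal / v.toReal := by
    rwa [le_div_iff₀ hvr]
  rw [div_lt_iff₀ (by positivity)] at hN2
  nlinarith

/-- Gluing of coordinates. -/
def T {n m : ℕ} (p : (Fin n → ℝ) × (Fin m → ℝ)) : Fin (n + m) → ℝ := Fin.append p.1 p.2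

theorem T_mp (n m : ℕ) : MeasurePreserving (T : (Fin n → ℝ) × (Fin m → ℝ) → (Fin (n + m) → ℝ)) := by
  have h1 := volume_measurePreserving_sumPiEquivProdPi_symm (fun _ : Fin n ⊕ Fin m => ℝ)
  have h2 := volume_measurePreserving_piCongrLeft (fun _ : Fin (n + m) => ℝ)
    (finSumFinEquiv (m := n) (n := m))
  have h3 := h2.comp h1
  have h4 : (T : (Fin n → ℝ) × (Fin m → ℝ) → (Fin (n + m) → ℝ)) =
      (MeasurableEquiv.piCongrLeft (fun _ : Fin (n + m) => ℝ) (finSumFinEquiv (m := n) (n := m))) ∘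
        (MeasurableEquiv.sumPiEquivProdPi (fun _ : Fin n ⊕ Fin m => ℝ)).symm := by
    funext p i
    refine Fin.addCases (fun a => ?_) (fun b => ?_) i
    · have e : Fin.castAdd m a = finSumFinEquiv (Sum.inl a) := by simp
      unfold T
      rw [Fin.append_left]
      simp only [Function.comp]
      rw [e]
      have h5 := Equiv.piCongrLeft_apply_apply (fun _ : Fin (n + m) => ℝ) finSumFinEquiv
        ((MeasurableEquiv.sumPiEquivProdPi (fun _ : Fin n ⊕ Fin m => ℝ)).symm p) (Sum.inl a)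
      exact Eq.trans rfl h5.symm
    · have e : Fin.natAdd n b = finSumFinEquiv (Sum.inr b) := by simp
      unfold T
      rw [Fin.append_right]
      simp only [Function.comp]
      rw [e]
      have h5 := Equiv.piCongrLeft_apply_apply (fun _ : Fin (n + m) => ℝ) finSumFinEquiv
        ((MeasurableEquiv.sumPiEquivProdPi (fun _ : Fin n ⊕ Fin m => ℝ)).symm p) (Sum.inr b)
      exact Eq.trans rfl h5.symm
  rw [h4]
  exact h3

lemma T_dot {n m : ℕ} (p q : (Fin n → ℝ) × (Fin m → ℝ)) :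
    T p ⬝ᵥ T q = p.1 ⬝ᵥ q.1 + p.2 ⬝ᵥ q.2 := by
  unfold T dotProduct
  rw [Fin.sum_univ_add]
  simp only [Fin.append_left, Fin.append_right]

lemma vol_eq {n m : ℕ} {B : Set (Fin (n + m) → ℝ)} (hB : MeasurableSet B) :
    volume B = ∫⁻ x : Fin n → ℝ, volume {s : Fin m → ℝ | T (x, s) ∈ B} := by
  rw [← (T_mp n m).measure_preimage hB.nullMeasurableSet, Measure.volume_eq_prod,
    Measure.prod_apply ((T_mp n m).measurable hB)]
  rfl

lemma vol_cube {m : ℕ} (c : ℝ) :
    volume {s : Fin m → ℝ | ∀ i, |s i| ≤ c} = ENNReal.ofReal (2 * c) ^ m := by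
  have h1 : {s : Fin m → ℝ | ∀ i, |s i| ≤ c} = Set.Icc (fun _ => -c) (fun _ => c) := by
    ext s
    simp only [Set.mem_setOf_eq, Set.mem_Icc, Pi.le_def, abs_le]
    constructor
    · intro h; exact ⟨fun i => (h i).1, fun i => (h i).2⟩
    · intro h i; exact ⟨h.1 i, h.2 i⟩
  rw [h1, Real.volume_Icc_pi, Finset.prod_const, Finset.card_univ, Fintype.card_fin]
  congr 2
  ring

lemma vol_cross {m : ℕ} (hm : 1 ≤ m) (r : ℝ) :
    volume {t : Fin m → ℝ | ∑ i, |t i| ≤ r} =
      ENNReal.ofReal r ^ m * ENNReal.ofReal (2 ^ m / m.factorial) := by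
  have : Nonempty (Fin m) := ⟨⟨0, by omega⟩⟩
  have h := volume_sum_rpow_le (ι := Fin m) (le_refl (1:ℝ)) r
  simp only [Real.rpow_one, div_one, Fintype.card_fin] at h
  rw [h]
  congr 2
  rw [Real.Gamma_nat_eq_factorial, show (1:ℝ) + 1 = ((1:ℕ):ℝ) + 1 by norm_num,
    Real.Gamma_nat_eq_factorial]
  simp

lemma lintegral_scale {n : ℕ} (F : (Fin n → ℝ) → ℝ≥0∞) (hF : Measurable F) {c : ℝ} (hc : 0 < c) :
    ∫⁻ y, F (c⁻¹ • y) = ENNReal.ofReal (c ^ n) * ∫⁻ y, F y := by
  have h1 := Measure.map_addHaar_smul (volume : Measure (Fin n → ℝ)) (inv_ne_zero hc.ne')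
  have h2 : ∫⁻ y, F (c⁻¹ • y) = ∫⁻ y, F y ∂(Measure.map (fun y => c⁻¹ • y) volume) :=
    (lintegral_map hF (measurable_const_smul _)).symm
  rw [h2, h1, lintegral_smul_measure]
  congr 2
  rw [Module.finrank_fin_fun, inv_pow, inv_inv, abs_of_pos (by positivity)]

end H739FM
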